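import Pool.Agent.Lib.MP_d632e4_lc.Few

open Cardinal Ordinal Order

namespace Pool.Agent.Results.MP_d632e4_lc.FewCandidates

/-- `D` is a club in `δ`: a closed unbounded subset of `δ`. -/
def IsClub (δ : Ordinal.{0}) (D : Set Ordinal.{0}) : Prop :=
  (∀ x ∈ D, x < δ) ∧ (∀ β < δ, ∃ γ ∈ D, β < γ) ∧
    (∀ γ < δ, 0 < γ → (∀ β < γ, ∃ x ∈ D, β < x ∧ x < γ) → γ ∈ D)

/-- `T` is a stationary subset of `δ`. -/
def IsStat (δ : Ordinal.{0}) (T : Set Ordinal.{0}) : Prop :=
  (∀ x ∈ T, x < δ) ∧ ∀ D, IsClub δ D → (T ∩ D).Nonempty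

/-- `c` restricted to `l.ord` is the increasing enumeration of a club in `α` of order type `l`. -/
def IsLadder (l : Cardinal.{0}) (α : Ordinal.{0}) (c : Ordinal.{0} → Ordinal.{0}) : Prop :=
  (∀ i j, i < j → j < l.ord → c i < c j) ∧ (∀ i < l.ord, c i < α) ∧
    (∀ β < α, ∃ i < l.ord, β < c i) ∧
    ∀ i < l.ord, IsSuccLimit i → ∀ γ, (∀ j < i, c j ≤ γ) → c i ≤ γ

/-- `c` is a sequence of ladders, one for every `α < l⁺` of cofinality `l`, and for every club `D`
in `l⁺` there are stationarily many such `α` for which `{i < l | P D (c α) i}` is stationary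
in `l`. -/
def Guesses (l : Cardinal.{0})
    (P : Set Ordinal.{0} → (Ordinal.{0} → Ordinal.{0}) → Ordinal.{0} → Prop)
    (c : Ordinal.{0} → Ordinal.{0} → Ordinal.{0}) : Prop :=
  (∀ α < (succ l).ord, α.cof = l → IsLadder l α (c α)) ∧
    ∀ D, IsClub (succ l).ord D → IsStat (succ l).ord
      {α | α < (succ l).ord ∧ α.cof = l ∧ IsStat l.ord {i | i < l.ord ∧ P D (c α) i}}

/-- `F` is a family of functions from `l` to `l` which dominates every such function on a club. -/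
def IsDominating (l : Cardinal.{0}) (F : Set (Ordinal.{0} → Ordinal.{0})) : Prop :=
  (∀ f ∈ F, ∀ i < l.ord, f i < l.ord) ∧ ∀ h : Ordinal.{0} → Ordinal.{0},
    (∀ i < l.ord, h i < l.ord) → ∃ f ∈ F, ∃ C, IsClub l.ord C ∧ ∀ i ∈ C, h i < f i

/-- the dominating number of `l` for domination on clubs -/
noncomputable def dominatingNumber (l : Cardinal.{0}) : Cardinal.{1} :=
  sInf {c | ∃ F, IsDominating l F ∧ #F = c}

/-- `F` is a family of functions from `l` to `l` which is not bounded by any such function. -/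
def IsUnbounded (l : Cardinal.{0}) (F : Set (Ordinal.{0} → Ordinal.{0})) : Prop :=
  (∀ f ∈ F, ∀ i < l.ord, f i < l.ord) ∧ ∀ h : Ordinal.{0} → Ordinal.{0},
    (∀ i < l.ord, h i < l.ord) → ∃ f ∈ F, ∀ j < l.ord, ∃ i < l.ord, j ≤ i ∧ h i < f i

/-- the unbounding number of `l` -/
noncomputable def unboundingNumber (l : Cardinal.{0}) : Cardinal.{1} :=
  sInf {c | ∃ F, IsUnbounded l F ∧ #F = c}

/-- Let `l` be regular and uncountable. Suppose that the clubs of `l⁺` are predicted, at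
stationarily many points `α` of cofinality `l`, by sets `A α` of unbounded subsets of `α`, and that
the sets `A α` have fewer than `dominatingNumber l` elements (for successor cardinals `l`), or fewer
than `unboundingNumber l` elements (for any `l`). Then for every `T` which is finite or at most a
regular cardinal `θ` with `θ⁺ < l` some sequence of ladders guesses all the points in the positions
`i + k`, `0 < k < T`. -/
theorem result (l : Cardinal.{0}) (hr : l.IsRegular) (hc : ℵ₀ < l)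
    (A : Ordinal.{0} → Set (Set Ordinal.{0}))
    (hA : ∀ α < (succ l).ord, α.cof = l → ∀ E ∈ A α,
      (∀ x ∈ E, x < α) ∧ ∀ β < α, ∃ x ∈ E, β < x)
    (hG : ∀ D, IsClub (succ l).ord D → IsStat (succ l).ord
      {α | α < (succ l).ord ∧ α.cof = l ∧ ∃ E ∈ A α, E ⊆ D})
    (hN : ((∃ m, l = succ m) ∧ ∀ α < (succ l).ord, α.cof = l → #(A α) < dominatingNumber l) ∨
      ∀ α < (succ l).ord, α.cof = l → #(A α) < unboundingNumber l) :
    ∀ T : Ordinal.{0}, (T < ω ∨ ∃ θ : Cardinal.{0}, θ.IsRegular ∧ succ θ < l ∧ T ≤ θ.ord) →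
      ∃ c, Guesses l (fun D c i => ∀ k, 0 < k → k < T → c (i + k) ∈ D) c := by
  have hP : Pool.Agent.Lib.MP_d632e4_lc.Predicts l A := ⟨hA, hG⟩
  have hcofθ : ∀ θ : Cardinal.{0}, θ.IsRegular → θ < l →
      ∃ c, Pool.Agent.Lib.MP_d632e4_lc.GuessesCof l θ c := by
    intro θ hθ hθl
    rcases hN with ⟨⟨m, hm⟩, hN⟩ | hN
    · have hm0 : ℵ₀ ≤ m := by
        by_contra hcon
        push Not at hcon
        have h1 : succ m ≤ ℵ₀ := Order.succ_le_of_lt hcon
        rw [← hm] at h1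
        exact absurd hc (not_lt.2 h1)
      refine Pool.Agent.Lib.MP_d632e4_lc.cof_of_few hm0 hm hP (fun α hα hcof g hg => ?_) hθ hθl
      have h1 : ¬ IsDominating l (g '' A α) := by
        intro hdom
        have h2 : dominatingNumber l ≤ #(g '' A α : Set (Ordinal.{0} → Ordinal.{0})) :=
          csInf_le' ⟨_, hdom, rfl⟩
        exact absurd ((hN α hα hcof).trans_le h2) (not_lt.2 Cardinal.mk_image_le)
      have h3 : ∃ h : Ordinal.{0} → Ordinal.{0}, (∀ i < l.ord, h i < l.ord) ∧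
          ∀ f ∈ g '' A α, ∀ C, IsClub l.ord C → ∃ i ∈ C, ¬ h i < f i := by
        by_contra hcon
        push Not at hcon
        refine h1 ⟨?_, fun h hh => ?_⟩
        · rintro _ ⟨E, _, rfl⟩ i hi
          exact hg E i hi
        · obtain ⟨f, hf, C, hC, hfC⟩ := hcon h hh
          exact ⟨f, hf, C, hC, hfC⟩
      obtain ⟨h, hh, hh'⟩ := h3
      refine ⟨h, hh, fun E hE => ⟨fun x hx => hx.1, fun C hC => ?_⟩⟩
      obtain ⟨i, hi, hi'⟩ := hh' (g E) ⟨E, hE, rfl⟩ C hC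
      exact ⟨i, ⟨hC.1 i hi, not_lt.1 hi'⟩, hi⟩
    · refine Pool.Agent.Lib.MP_d632e4_lc.cof_of_bounded hr hc hP (fun α hα hcof g hg => ?_)
        hθ hθl
      have h1 : ¬ IsUnbounded l (g '' A α) := by
        intro hdom
        have h2 : unboundingNumber l ≤ #(g '' A α : Set (Ordinal.{0} → Ordinal.{0})) :=
          csInf_le' ⟨_, hdom, rfl⟩
        exact absurd ((hN α hα hcof).trans_le h2) (not_lt.2 Cardinal.mk_image_le)
      have h3 : ∃ h : Ordinal.{0} → Ordinal.{0}, (∀ i < l.ord, h i < l.ord) ∧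
          ∀ f ∈ g '' A α, ∃ j < l.ord, ∀ i < l.ord, j ≤ i → f i ≤ h i := by
        by_contra hcon
        push Not at hcon
        refine h1 ⟨?_, fun h hh => ?_⟩
        · rintro _ ⟨E, _, rfl⟩ i hi
          exact hg E i hi
        · obtain ⟨f, hf, hfj⟩ := hcon h hh
          exact ⟨f, hf, hfj⟩
      obtain ⟨h, hh, hh'⟩ := h3
      exact ⟨h, hh, fun E hE => hh' (g E) ⟨E, hE, rfl⟩⟩
  rintro T (hT | ⟨θ, hθ, hθl, hT⟩)
  · obtain ⟨n, rfl⟩ := lt_omega0.1 hT
    obtain ⟨c0, h1, h2⟩ := hcofθ ℵ₀ isRegular_aleph0 hc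
    obtain ⟨c, h3, h4⟩ := Pool.Agent.Lib.MP_d632e4_lc.small_cofinality hr hc c0 h1 (by
      intro D hD
      refine (h2 D hD).mono ?_ fun x hx => hx.1
      rintro α ⟨h5, h6, h7⟩
      refine ⟨h5, h6, ?_⟩
      have hω : Pool.Agent.Lib.MP_d632e4_lc.Club l.ord {i | i < l.ord ∧ ω ≤ i} := by
        refine ⟨fun x hx => hx.1, fun β hβ => ?_, fun γ hγ _ h => ⟨hγ, ?_⟩⟩
        · have h8 : max β ω < l.ord := max_lt hβ (by
            rw [← ord_aleph0]
            exact ord_lt_ord.2 hc)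
          exact ⟨max β ω + 1, ⟨Pool.Agent.Lib.MP_d632e4_lc.ord_succ_lt hc.le h8,
            (le_max_right _ _).trans (lt_add_one _).le⟩,
            (le_max_left _ _).trans_lt (lt_add_one _)⟩
        · obtain ⟨x, hx, _, hx'⟩ := h 0 (by assumption)
          exact hx.2.trans hx'.le
      refine (h7.inter_club hr hc hω).mono ?_ fun x hx => hx.1
      rintro i ⟨⟨hi, h8, h9⟩, h10⟩
      refine ⟨hi, h8, ?_⟩
      rw [h9]
      exact aleph0_le_card.2 h10.2) n
    refine ⟨c, fun α hα hcof => ⟨(h3 α hα hcof).mono, (h3 α hα hcof).lt, (h3 α hα hcof).unb,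
      (h3 α hα hcof).cont⟩, fun D hD => Pool.Agent.Lib.MP_d632e4_lc.Stat.mono (h4 D hD) ?_
        fun x hx => hx.1⟩
    rintro α ⟨h5, h6, h7⟩
    refine ⟨h5, h6, Pool.Agent.Lib.MP_d632e4_lc.Stat.mono h7 ?_ fun x hx => hx.1⟩
    rintro i ⟨hi, h8⟩
    refine ⟨hi, fun k hk0 hk => ?_⟩
    obtain ⟨k', rfl⟩ := lt_omega0.1 (hk.trans (natCast_lt_omega0 n))
    exact h8 k' (by exact_mod_cast hk0) (le_of_lt (by exact_mod_cast hk))
  · obtain ⟨c0, h0⟩ := hcofθ θ hθ ((lt_succ θ).trans hθl)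
    obtain ⟨c, h3, h4⟩ := Pool.Agent.Lib.MP_d632e4_lc.block_of_cof hr hc hθ hθl h0
    refine ⟨c, fun α hα hcof => ⟨(h3 α hα hcof).mono, (h3 α hα hcof).lt, (h3 α hα hcof).unb,
      (h3 α hα hcof).cont⟩, fun D hD => Pool.Agent.Lib.MP_d632e4_lc.Stat.mono (h4 D hD) ?_
        fun x hx => hx.1⟩
    rintro α ⟨h5, h6, h7⟩
    refine ⟨h5, h6, Pool.Agent.Lib.MP_d632e4_lc.Stat.mono h7 ?_ fun x hx => hx.1⟩
    rintro i ⟨hi, h8⟩
    exact ⟨hi, fun k hk0 hk => h8 k hk0 (hk.trans_le hT)⟩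

end Pool.Agent.Results.MP_d632e4_lc.FewCandidates
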