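import Pool.Agent.Lib.MP_d632e4_lc.Long

open Cardinal Ordinal Order

namespace Pool.Agent.Results.MP_d632e4_lc.InfiniteBlocks

/-- `D` is a club in `δ`: a closed unbounded subset of `δ`. -/
def IsClub (δ : Ordinal.{0}) (D : Set Ordinal.{0}) : Prop :=
  (∀ x ∈ D, x < δ) ∧ (∀ β < δ, ∃ γ ∈ D, β < γ) ∧
    (∀ γ < δ, 0 < γ → (∀ β < γ, ∃ x ∈ D, β < x ∧ x < γ) → γ ∈ D)

/-- `T` is a stationary subset of `δ`. -/
def IsStat (δ : Ordinal.{0}) (T : Set Ordinal.{0}) : Prop :=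
  (∀ x ∈ T, x < δ) ∧ ∀ D, IsClub δ D → (T ∩ D).Nonempty

/-- `c` restricted to `l.ord` is the increasing enumeration of a club in `α` of order type `l`. -/
def IsLadder (l : Cardinal.{0}) (α : Ordinal.{0}) (c : Ordinal.{0} → Ordinal.{0}) : Prop :=
  (∀ i j, i < j → j < l.ord → c i < c j) ∧ (∀ i < l.ord, c i < α) ∧
    (∀ β < α, ∃ i < l.ord, β < c i) ∧
    ∀ i < l.ord, IsSuccLimit i → ∀ γ, (∀ j < i, c j ≤ γ) → c i ≤ γ

/-- `c` is a sequence of ladders, one for every `α < l⁺` of cofinality `l`, and for every club `D`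
in `l⁺` there are stationarily many such `α` for which `{i < l | P D (c α) i}` is stationary
in `l`. -/
def Guesses (l : Cardinal.{0})
    (P : Set Ordinal.{0} → (Ordinal.{0} → Ordinal.{0}) → Ordinal.{0} → Prop)
    (c : Ordinal.{0} → Ordinal.{0} → Ordinal.{0}) : Prop :=
  (∀ α < (succ l).ord, α.cof = l → IsLadder l α (c α)) ∧
    ∀ D, IsClub (succ l).ord D → IsStat (succ l).ord
      {α | α < (succ l).ord ∧ α.cof = l ∧ IsStat l.ord {i | i < l.ord ∧ P D (c α) i}}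

/-- Let `θ` and `l` be regular cardinals with `θ⁺ < l`. Some sequence of ladders guesses `θ`
consecutive successor points (in all the positions `i + k`, `0 < k < θ`) if and only if some
sequence of ladders guesses one successor point of cofinality `θ`. -/
theorem result (l θ : Cardinal.{0}) (hl : l.IsRegular) (hθ : θ.IsRegular) (h : succ θ < l) :
    (∃ c, Guesses l (fun D c i => ∀ k, 0 < k → k < θ.ord → c (i + k) ∈ D) c) ↔
      ∃ c, Guesses l (fun D c i => c (i + 1) ∈ D ∧ (c (i + 1)).cof = θ) c := by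
  have hc : ℵ₀ < l := (hθ.aleph0_le.trans (le_succ θ)).trans_lt h
  constructor
  · rintro ⟨c0, h1, h2⟩
    obtain ⟨c, h3, h4⟩ := Pool.Agent.Lib.MP_d632e4_lc.cof_of_block hl hc hθ
      ((lt_succ θ).trans h) (c := c0) ⟨fun α hα hcof => ⟨(h1 α hα hcof).1, (h1 α hα hcof).2.1,
        (h1 α hα hcof).2.2.1, (h1 α hα hcof).2.2.2⟩, h2⟩
    exact ⟨c, fun α hα hcof => ⟨(h3 α hα hcof).mono, (h3 α hα hcof).lt, (h3 α hα hcof).unb,
      (h3 α hα hcof).cont⟩, h4⟩
  · rintro ⟨c0, h1, h2⟩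
    obtain ⟨c, h3, h4⟩ := Pool.Agent.Lib.MP_d632e4_lc.block_of_cof hl hc hθ h
      (c0 := c0) ⟨fun α hα hcof => ⟨(h1 α hα hcof).1, (h1 α hα hcof).2.1,
        (h1 α hα hcof).2.2.1, (h1 α hα hcof).2.2.2⟩, h2⟩
    exact ⟨c, fun α hα hcof => ⟨(h3 α hα hcof).mono, (h3 α hα hcof).lt, (h3 α hα hcof).unb,
      (h3 α hα hcof).cont⟩, h4⟩

end Pool.Agent.Results.MP_d632e4_lc.InfiniteBlocks
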