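import Pool.Agent.Lib.MP_d632e4_lc.Many
import Pool.Agent.Lib.MP_d632e4_lc.Enough

open Cardinal Ordinal Order

namespace Pool.Agent.Results.MP_d632e4_lc.LadderNumber

/-- `D` is a club in `δ`: a closed unbounded subset of `δ`. -/
def IsClub (δ : Ordinal.{0}) (D : Set Ordinal.{0}) : Prop :=
  (∀ x ∈ D, x < δ) ∧ (∀ β < δ, ∃ γ ∈ D, β < γ) ∧
    (∀ γ < δ, 0 < γ → (∀ β < γ, ∃ x ∈ D, β < x ∧ x < γ) → γ ∈ D)

/-- `T` is a stationary subset of `δ`. -/
def IsStat (δ : Ordinal.{0}) (T : Set Ordinal.{0}) : Prop :=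
  (∀ x ∈ T, x < δ) ∧ ∀ D, IsClub δ D → (T ∩ D).Nonempty

/-- `c` restricted to `l.ord` is the increasing enumeration of a club in `α` of order type `l`. -/
def IsLadder (l : Cardinal.{0}) (α : Ordinal.{0}) (c : Ordinal.{0} → Ordinal.{0}) : Prop :=
  (∀ i j, i < j → j < l.ord → c i < c j) ∧ (∀ i < l.ord, c i < α) ∧
    (∀ β < α, ∃ i < l.ord, β < c i) ∧
    ∀ i < l.ord, IsSuccLimit i → ∀ γ, (∀ j < i, c j ≤ γ) → c i ≤ γ

/-- `F` is a family of functions from `l` to `l` which is not bounded by any such function. -/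
def IsUnbounded (l : Cardinal.{0}) (F : Set (Ordinal.{0} → Ordinal.{0})) : Prop :=
  (∀ f ∈ F, ∀ i < l.ord, f i < l.ord) ∧ ∀ h : Ordinal.{0} → Ordinal.{0},
    (∀ i < l.ord, h i < l.ord) → ∃ f ∈ F, ∀ j < l.ord, ∃ i < l.ord, j ≤ i ∧ h i < f i

/-- the unbounding number of `l` -/
noncomputable def unboundingNumber (l : Cardinal.{0}) : Cardinal.{1} :=
  sInf {c | ∃ F, IsUnbounded l F ∧ #F = c}

/-- `n` consecutive successor points of `c` are in `D`, for stationarily many `i < l`. -/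
def Catches (l : Cardinal.{0}) (n : ℕ) (D : Set Ordinal.{0}) (c : Ordinal.{0} → Ordinal.{0}) :
    Prop :=
  IsStat l.ord {i | i < l.ord ∧ ∀ k : ℕ, 1 ≤ k → k ≤ n → c (i + k) ∈ D}

/-- `c` is a sequence of ladders, one for every `α < l⁺` of cofinality `l`, and for every club `D`
in `l⁺` there are stationarily many such `α` for which the ladder `c α` has `n` consecutive
successor points in `D` at stationarily many `i < l`. -/
def Guesses (l : Cardinal.{0}) (n : ℕ) (c : Ordinal.{0} → Ordinal.{0} → Ordinal.{0}) : Prop :=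
  (∀ α < (succ l).ord, α.cof = l → IsLadder l α (c α)) ∧
    ∀ D, IsClub (succ l).ord D → IsStat (succ l).ord
      {α | α < (succ l).ord ∧ α.cof = l ∧ Catches l n D (c α)}

/-- At least `n` of the intervals `(c j, c (j + 1)]` with `i ≤ j < h` meet `D`. -/
def Meets (D : Set Ordinal.{0}) (c : Ordinal.{0} → Ordinal.{0}) (n : ℕ) (i h : Ordinal.{0}) :
    Prop :=
  ∃ t : ℕ → Ordinal.{0}, (∀ k k', k < k' → k' < n → t k < t k') ∧
    ∀ k < n, i ≤ t k ∧ t k < h ∧ ∃ x ∈ D, c (t k) < x ∧ x ≤ c (t k + 1)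

/-- Let `l` be the successor of an infinite cardinal `m` and let `n` be a positive integer.

(1) There are sets `C α` of at most `b(l)` ladders in `α` such that for every club `D` of `l⁺` and
every limit point `α` of `D` of cofinality `l`, some ladder in `C α` has `n` consecutive successor
points in `D` at stationarily many `i < l`.

(2) Suppose that there are sets `C α` of fewer than `b(l)` ladders in `α`, and window functions
`W c : l → l`, such that for every club `D` of `l⁺` there are at least one `α < l⁺` of cofinality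
`l` and one `c ∈ C α` such that for unboundedly many `i < l` at least `n` of the intervals
`(c j, c (j + 1)]`, `i ≤ j < W c i`, meet `D`. Then some sequence of ladders, one for each `α`,
guesses `n` consecutive successor points. -/
theorem result (l m : Cardinal.{0}) (hm : ℵ₀ ≤ m) (hl : l = succ m) (n : ℕ) (hn : 1 ≤ n) :
    (∃ C : Ordinal.{0} → Set (Ordinal.{0} → Ordinal.{0}),
      (∀ α < (succ l).ord, α.cof = l →
        #(C α) ≤ unboundingNumber l ∧ ∀ c ∈ C α, IsLadder l α c) ∧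
      ∀ D, IsClub (succ l).ord D → ∀ α < (succ l).ord, α.cof = l →
        (∀ β < α, ∃ x ∈ D, β < x ∧ x < α) → ∃ c ∈ C α, Catches l n D c) ∧
    ((∃ (C : Ordinal.{0} → Set (Ordinal.{0} → Ordinal.{0}))
        (W : (Ordinal.{0} → Ordinal.{0}) → Ordinal.{0} → Ordinal.{0}),
      (∀ α < (succ l).ord, α.cof = l →
        #(C α) < unboundingNumber l ∧ ∀ c ∈ C α, IsLadder l α c) ∧
      (∀ c, ∀ i < l.ord, W c i < l.ord) ∧
      ∀ D, IsClub (succ l).ord D → ∃ α < (succ l).ord, α.cof = l ∧ ∃ c ∈ C α,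
        ∀ i₀ < l.ord, ∃ i < l.ord, i₀ ≤ i ∧ Meets D c n i (W c i)) →
    ∃ c, Guesses l n c) := by
  classical
  have hml : m < l := by rw [hl]; exact lt_succ m
  have hr : l.IsRegular := by rw [hl]; exact isRegular_succ hm
  have hc : ℵ₀ < l := hm.trans_lt hml
  have hlcof : l.ord.cof = l := hr.cof_ord
  have h0l : 0 < l.ord := omega0_pos.trans_le (omega0_le_ord.2 hc.le)
  refine ⟨?_, ?_⟩
  · -- (1)
    obtain ⟨F, hF, hFc⟩ : ∃ F, IsUnbounded l F ∧ #F = unboundingNumber l := by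
      have h1 : unboundingNumber l ∈ {c : Cardinal.{1} | ∃ F, IsUnbounded l F ∧ #F = c} := by
        refine csInf_mem ⟨_, {f | ∀ i < l.ord, f i < l.ord}, ⟨fun f hf => hf, fun h hh => ?_⟩, rfl⟩
        refine ⟨fun i => h i + 1, fun i hi =>
          Pool.Agent.Lib.MP_d632e4_lc.ord_succ_lt hc.le (hh i hi), fun j hj =>
            ⟨j, hj, le_rfl, lt_add_one _⟩⟩
      exact h1
    obtain ⟨F', hF'c, hF', hF'u⟩ := Pool.Agent.Lib.MP_d632e4_lc.unbounded_club hr hc F hF.1 hF.2
    -- unbounded families have at least `l` members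
    have hlF : Cardinal.lift.{1} m ≤ #F := by
      by_contra hcon
      push Not at hcon
      have h1 : #F < Cardinal.lift.{1} l := hcon.trans (Cardinal.lift_lt.2 hml)
      obtain ⟨κ, hκ⟩ : ∃ κ : Cardinal.{0}, Cardinal.lift.{1} κ = #F := by
        obtain ⟨κ, hκ⟩ := Cardinal.mem_range_lift_of_le h1.le
        exact ⟨κ, hκ⟩
      have hκl : κ < l := by
        rw [← hκ] at h1
        exact Cardinal.lift_lt.1 h1
      have h2 : Cardinal.lift.{1} #κ.ord.ToType = Cardinal.lift.{0} #F := by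
        rw [Cardinal.mk_toType, card_ord, hκ, Cardinal.lift_uzero]
      obtain ⟨e⟩ := Cardinal.lift_mk_eq'.1 h2
      have h3 : ∀ i, ∃ b, i < l.ord → b < l.ord ∧ ∀ x : κ.ord.ToType, (e x).1 i ≤ b := by
        intro i
        by_cases hi : i < l.ord
        · obtain ⟨b, hb, hb'⟩ := Pool.Agent.Lib.MP_d632e4_lc.exists_bound (δ := l.ord)
            (ι := κ.ord.ToType) (by rw [Cardinal.mk_toType, card_ord, hlcof]; exact hκl)
            (fun x => (e x).1 i) (fun x => hF.1 _ (e x).2 i hi)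
          exact ⟨b, fun _ => ⟨hb, hb'⟩⟩
        · exact ⟨0, fun h => absurd h hi⟩
      choose b hb using h3
      obtain ⟨f, hfF, hf⟩ := hF.2 b (fun i hi => (hb i hi).1)
      obtain ⟨i, hi, _, hlt⟩ := hf 0 h0l
      have h4 := (hb i hi).2 (e.symm ⟨f, hfF⟩)
      rw [Equiv.apply_symm_apply] at h4
      exact absurd hlt (not_lt.2 h4)
    obtain ⟨c, hc1, hc2⟩ := Pool.Agent.Lib.MP_d632e4_lc.enough hm hl n F' hF' hF'u
    refine ⟨fun α => Set.range fun p => c p α, fun α hα hcof => ⟨?_, ?_⟩, ?_⟩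
    · have h1 : #(Set.range fun p => c p α) ≤ #(F' × (Fin n → m.ord.ToType)) :=
        Cardinal.mk_range_le
      refine h1.trans ?_
      have h2 : #(F' × (Fin n → m.ord.ToType)) ≤ #F * Cardinal.lift.{1} m := by
        rw [Cardinal.mk_prod, Cardinal.lift_uzero]
        refine mul_le_mul' ?_ ?_
        · simpa using hF'c
        · exact Cardinal.lift_le.2 (Pool.Agent.Lib.MP_d632e4_lc.card_fin_le hm n)
      refine h2.trans ?_
      have h3 : ℵ₀ ≤ #F := (Cardinal.aleph0_le_lift.2 hm).trans hlF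
      rw [← hFc]
      exact (mul_le_mul' le_rfl hlF).trans (Cardinal.mul_eq_self h3).le
    · rintro _ ⟨p, rfl⟩
      exact ⟨(hc1 α hα hcof p).mono, (hc1 α hα hcof p).lt, (hc1 α hα hcof p).unb,
        (hc1 α hα hcof p).cont⟩
    · intro D hD α hα hcof hacc
      obtain ⟨p, hp⟩ := hc2 α hα hcof D hacc
      exact ⟨c p α, ⟨p, rfl⟩, hp⟩
  · -- (2)
    rintro ⟨C, W, hC, hW, hG⟩
    by_contra hcon
    have hno : ∀ c, ¬ Pool.Agent.Lib.MP_d632e4_lc.Guesses l n c := by
      intro c hc'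
      refine hcon ⟨c, fun α h1 h2 => ⟨(hc'.1 α h1 h2).mono, (hc'.1 α h1 h2).lt,
        (hc'.1 α h1 h2).unb, (hc'.1 α h1 h2).cont⟩, hc'.2⟩
    let P : Ordinal.{0} → Set ((Ordinal.{0} → Ordinal.{0}) × (Ordinal.{0} → Ordinal.{0})) :=
      fun α => (fun c => (c, W c)) '' C α
    obtain ⟨D, hD, hD'⟩ := Pool.Agent.Lib.MP_d632e4_lc.sparse_many hm hl (T := n)
      (Or.inl ⟨n, hn, rfl, hno⟩) P (by
        rintro α hα hcof _ ⟨c, hcC, rfl⟩
        have h1 := (hC α hα hcof).2 c hcC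
        exact ⟨⟨h1.1, h1.2.1, h1.2.2.1, h1.2.2.2⟩, hW c⟩) (by
        intro α hα hcof g hg
        have h1 : ¬ IsUnbounded l (g '' P α) := by
          intro hun
          have h2 : unboundingNumber l ≤ #(g '' P α : Set (Ordinal.{0} → Ordinal.{0})) :=
            csInf_le' ⟨_, hun, rfl⟩
          have h3 : #(g '' P α : Set (Ordinal.{0} → Ordinal.{0})) ≤ #(C α) :=
            Cardinal.mk_image_le.trans Cardinal.mk_image_le
          exact absurd ((hC α hα hcof).1.trans_le h2) (not_lt.2 h3)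
        by_contra h4
        push Not at h4
        refine h1 ⟨?_, fun h hh => ?_⟩
        · rintro _ ⟨p, _, rfl⟩ i hi
          exact hg p i hi
        · obtain ⟨p, hp, hp'⟩ := h4 h hh
          exact ⟨g p, ⟨p, hp, rfl⟩, hp'⟩)
    obtain ⟨α, hα, hcof, c, hcC, hcD⟩ := hG D hD
    obtain ⟨i₀, hi₀, hi₀'⟩ := hD' α hα hcof (c, W c) ⟨c, hcC, rfl⟩
    obtain ⟨i, hi, hi0, t, ht, ht'⟩ := hcD i₀ hi₀
    refine hi₀' i hi hi0 ?_
    have hnat : ∀ k : Ordinal.{0}, k < n → ∃ q : ℕ, k = q ∧ q < n := by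
      intro k hk
      obtain ⟨q, rfl⟩ := lt_omega0.1 (hk.trans (natCast_lt_omega0 n))
      exact ⟨q, rfl, by exact_mod_cast hk⟩
    refine ⟨fun k => if h : ∃ q : ℕ, k = q then t h.choose else 0, ?_, ?_⟩
    · intro k k' hkk' hk'
      obtain ⟨q', rfl, hq'⟩ := hnat k' hk'
      obtain ⟨q, rfl, hq⟩ := hnat k (hkk'.trans hk')
      have h1 : ∃ q_1 : ℕ, (q : Ordinal.{0}) = q_1 := ⟨q, rfl⟩
      have h2 : ∃ q_1 : ℕ, (q' : Ordinal.{0}) = q_1 := ⟨q', rfl⟩
      have h3 : h1.choose = q := by exact_mod_cast h1.choose_spec.symm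
      have h4 : h2.choose = q' := by exact_mod_cast h2.choose_spec.symm
      simp only [dif_pos h1, dif_pos h2, h3, h4]
      exact ht q q' (by exact_mod_cast hkk') hq'
    · intro k hk
      obtain ⟨q, rfl, hq⟩ := hnat k hk
      have h1 : ∃ q_1 : ℕ, (q : Ordinal.{0}) = q_1 := ⟨q, rfl⟩
      have h3 : h1.choose = q := by exact_mod_cast h1.choose_spec.symm
      simp only [dif_pos h1, h3]
      exact ht' q hq

end Pool.Agent.Results.MP_d632e4_lc.LadderNumber
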