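import Pool.Agent.Lib.MP_d632e4_lc.Small

open Cardinal Ordinal Order

namespace Pool.Agent.Results.MP_d632e4_lc.OneSmallPoint

/-- `D` is a club in `δ`: a closed unbounded subset of `δ`. -/
def IsClub (δ : Ordinal.{0}) (D : Set Ordinal.{0}) : Prop :=
  (∀ x ∈ D, x < δ) ∧ (∀ β < δ, ∃ γ ∈ D, β < γ) ∧
    (∀ γ < δ, 0 < γ → (∀ β < γ, ∃ x ∈ D, β < x ∧ x < γ) → γ ∈ D)

/-- `T` is a stationary subset of `δ`. -/
def IsStat (δ : Ordinal.{0}) (T : Set Ordinal.{0}) : Prop :=
  (∀ x ∈ T, x < δ) ∧ ∀ D, IsClub δ D → (T ∩ D).Nonempty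

/-- `c` restricted to `l.ord` is the increasing enumeration of a club in `α` of order type `l`. -/
def IsLadder (l : Cardinal.{0}) (α : Ordinal.{0}) (c : Ordinal.{0} → Ordinal.{0}) : Prop :=
  (∀ i j, i < j → j < l.ord → c i < c j) ∧ (∀ i < l.ord, c i < α) ∧
    (∀ β < α, ∃ i < l.ord, β < c i) ∧
    ∀ i < l.ord, IsSuccLimit i → ∀ γ, (∀ j < i, c j ≤ γ) → c i ≤ γ

/-- `c` is a sequence of ladders, one for every `α < l⁺` of cofinality `l`, and for every club `D`
in `l⁺` there are stationarily many such `α` for which `{i < l | P D (c α) i}` is stationary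
in `l`. -/
def Guesses (l : Cardinal.{0})
    (P : Set Ordinal.{0} → (Ordinal.{0} → Ordinal.{0}) → Ordinal.{0} → Prop)
    (c : Ordinal.{0} → Ordinal.{0} → Ordinal.{0}) : Prop :=
  (∀ α < (succ l).ord, α.cof = l → IsLadder l α (c α)) ∧
    ∀ D, IsClub (succ l).ord D → IsStat (succ l).ord
      {α | α < (succ l).ord ∧ α.cof = l ∧ IsStat l.ord {i | i < l.ord ∧ P D (c α) i}}

/-- For every regular uncountable `l`: if some sequence of ladders guesses one successor point of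
cofinality at most `|i|` (in the positions `i + 1`), then for every `n` some sequence of ladders
guesses `n` consecutive successor points. -/
theorem result (l : Cardinal.{0}) (hr : l.IsRegular) (hc : ℵ₀ < l)
    (h : ∃ c, Guesses l (fun D c i => c (i + 1) ∈ D ∧ (c (i + 1)).cof ≤ i.card) c) (n : ℕ) :
    ∃ c, Guesses l (fun D c i => ∀ k : ℕ, 1 ≤ k → k ≤ n → c (i + k) ∈ D) c := by
  obtain ⟨c0, h1, h2⟩ := h
  obtain ⟨c, h3, h4⟩ := Pool.Agent.Lib.MP_d632e4_lc.small_cofinality hr hc c0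
    (fun α hα hcof => ⟨(h1 α hα hcof).1, (h1 α hα hcof).2.1, (h1 α hα hcof).2.2.1,
      (h1 α hα hcof).2.2.2⟩) h2 n
  exact ⟨c, fun α hα hcof => ⟨(h3 α hα hcof).mono, (h3 α hα hcof).lt, (h3 α hα hcof).unb,
    (h3 α hα hcof).cont⟩, h4⟩

end Pool.Agent.Results.MP_d632e4_lc.OneSmallPoint
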